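import Pool.Agent.H97.Sun.Final

/-!
# The congruence for `∑ choose (2k) k / k^3` modulo `p^4`

For every prime `p > 7`, the difference of `∑_{k<p} choose (2k) k / k^3` and
`-2 H_{p-1} / p^2 - (13/27) H_{p-1}^{(3)}` is `p^4` times a rational number whose denominator is
prime to `p`.
-/

namespace Pool.Agent.Results.MP_3b7928_nt.CubeSum

open Finset

theorem result (p : ℕ) (hp : p.Prime) (h7 : 7 < p) :
    ∃ a b : ℤ, ¬ (p : ℤ) ∣ b ∧
      ((∑ k ∈ Icc 1 (p - 1), ((2 * k).choose k : ℚ) / (k : ℚ) ^ 3) -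
        (-2 * (∑ k ∈ Icc 1 (p - 1), 1 / (k : ℚ)) / (p : ℚ) ^ 2 -
          13 / 27 * ∑ k ∈ Icc 1 (p - 1), 1 / (k : ℚ) ^ 3)) * b = (p : ℚ) ^ 4 * a :=
  Pool.Agent.H97.Sun.main p hp h7

end Pool.Agent.Results.MP_3b7928_nt.CubeSum
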